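import Pool.Agent.H682R3.Few.School

/-!
# Matrix multiplication: circuit size against the number of input-output paths
-/

namespace Pool.Agent.Results.MP_e72dc0_lc.FewPaths

open Finset Pool.Agent.H682R3.Few

/-- Let `C` be an arithmetic circuit over a field `F` computing the product `(c_{ik})` of two
generic `n × n` matrices `(a_{ij})`, `(b_{jk})`, and let `f i j w` be the number of directed paths
from the nodes carrying `a_{ij}` to the node `w`. Let `P₁ = ∑_{i,j,k} f i j (c_{ik})` be the number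
of paths from an entry of `A` to an entry of the same row of `A B`, and
`P = ∑_{i',j,i,k} f i' j (c_{ik})` the number of paths from the entries of `A` to the entries of
`A B`.
(1) If `P₁ ≤ (2 - δ) n³` then `size * P ≥ δ¹⁰ n⁶ / (4·10⁸)`.
(2) If `P ≤ (2 - δ) n³` then `size ≥ δ¹⁰ n³ / (8·10⁸)`.
(3) The school algorithm has `P₁ ≤ P = n³` and size at most `7 n³`. -/
theorem result (F : Type) [Field F] (n : ℕ) :
    (∀ C : ACircuit F n, C.ComputesMM →
      ∀ f : Fin n → Fin n → C.V → ℕ, (∀ i j, C.G.IsCount ∅ (startA C i j) (f i j)) →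
      ∀ δ : ℝ, 0 < δ → δ ≤ 2 →
      (((∑ i, ∑ j, ∑ k, f i j (C.out i k) : ℕ) : ℝ) ≤ (2 - δ) * (n : ℝ) ^ 3 →
        δ ^ 10 * (n : ℝ) ^ 6 / (4 * 10 ^ 8) ≤ (Fintype.card C.V + C.G.E.card) *
          ((∑ i', ∑ j, ∑ i, ∑ k, f i' j (C.out i k) : ℕ) : ℝ)) ∧
      (((∑ i', ∑ j, ∑ i, ∑ k, f i' j (C.out i k) : ℕ) : ℝ) ≤ (2 - δ) * (n : ℝ) ^ 3 →
        δ ^ 10 * (n : ℝ) ^ 3 / (8 * 10 ^ 8) ≤ Fintype.card C.V + C.G.E.card)) ∧
    (∃ C : ACircuit F n, C.ComputesMM ∧
      ∃ f : Fin n → Fin n → C.V → ℕ, (∀ i j, C.G.IsCount ∅ (startA C i j) (f i j)) ∧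
        ∑ i', ∑ j, ∑ i, ∑ k, f i' j (C.out i k) = n ^ 3 ∧
        Fintype.card C.V + C.G.E.card ≤ 7 * n ^ 3) := by
  constructor
  · intro C hC f hf δ hδ hδ2
    have hfc : ∀ i j, f i j = C.G.cnt ∅ (start (rowLab (labA C) i) j) := by
      intro i j
      rw [startA_eq]
      exact C.G.count_unique ∅ _ _ _ (hf i j) (C.G.cnt_eq ∅ _)
    have hP1 : ∑ i, ∑ j, ∑ k, f i j (C.out i k) = ∑ i, PP C.G (labA C) C.out i i := by
      refine sum_congr rfl fun i _ => ?_
      unfold PP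
      exact sum_congr rfl fun j _ => sum_congr rfl fun k _ => by rw [hfc]
    have hP : ∑ i', ∑ j, ∑ i, ∑ k, f i' j (C.out i k) =
        ∑ i', ∑ i, PP C.G (labA C) C.out i' i := by
      refine sum_congr rfl fun i' _ => ?_
      rw [sum_comm]
      refine sum_congr rfl fun i _ => ?_
      unfold PP
      exact sum_congr rfl fun j _ => sum_congr rfl fun k _ => by rw [hfc]
    have main : ((∑ i, ∑ j, ∑ k, f i j (C.out i k) : ℕ) : ℝ) ≤ (2 - δ) * (n : ℝ) ^ 3 →
        δ ^ 10 * (n : ℝ) ^ 6 / (4 * 10 ^ 8) ≤ (Fintype.card C.V + C.G.E.card) *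
          ((∑ i', ∑ j, ∑ i, ∑ k, f i' j (C.out i k) : ℕ) : ℝ) := by
      rw [hP1, hP]
      exact mm_tradeoff C hC δ hδ hδ2
    refine ⟨main, fun h => ?_⟩
    have h1 : ∑ i, ∑ j, ∑ k, f i j (C.out i k) ≤ ∑ i', ∑ j, ∑ i, ∑ k, f i' j (C.out i k) := by
      refine sum_le_sum fun i _ => sum_le_sum fun j _ => ?_
      exact single_le_sum (f := fun i' => ∑ k, f i j (C.out i' k)) (fun _ _ => Nat.zero_le _)
        (mem_univ i)
    have h1r : ((∑ i, ∑ j, ∑ k, f i j (C.out i k) : ℕ) : ℝ) ≤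
        ((∑ i', ∑ j, ∑ i, ∑ k, f i' j (C.out i k) : ℕ) : ℝ) := by exact_mod_cast h1
    have h2 := main (h1r.trans h)
    rcases Nat.eq_zero_or_pos n with hn | hn
    · subst hn
      have : (0 : ℝ) ≤ Fintype.card C.V + C.G.E.card := by positivity
      simpa using this
    · have hn0 : (0 : ℝ) < (n : ℝ) := by exact_mod_cast hn
      have hn3 : (0 : ℝ) < (n : ℝ) ^ 3 := by positivity
      have hS : (0 : ℝ) ≤ Fintype.card C.V + C.G.E.card := by positivity
      have h3 : δ ^ 10 * (n : ℝ) ^ 6 / (4 * 10 ^ 8) ≤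
          (Fintype.card C.V + C.G.E.card) * (2 * (n : ℝ) ^ 3) := by
        refine h2.trans (mul_le_mul_of_nonneg_left (h.trans ?_) hS)
        have : (2 - δ) ≤ 2 := by linarith
        gcongr
      have h4 : δ ^ 10 * (n : ℝ) ^ 6 / (4 * 10 ^ 8) =
          (δ ^ 10 * (n : ℝ) ^ 3 / (8 * 10 ^ 8)) * (2 * (n : ℝ) ^ 3) := by ring
      rw [h4] at h3
      exact le_of_mul_le_mul_right h3 (by positivity)
  · refine ⟨school F n, fun i k => rfl, fun i j => spaths n i j, fun i j => school_count F n i j,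
      ?_, school_size F n⟩
    have h : ∀ i' j i k : Fin n, spaths n i' j ((school F n).out i k) = if i = i' then 1 else 0 :=
      fun i' j i k => rfl
    simp only [h]
    simp
    ring

end Pool.Agent.Results.MP_e72dc0_lc.FewPaths
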