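import Pool.Agent.H429R4.MM.Upper

/-!
# Every algorithm for matrix multiplication has `c m ^ 3` different products up to relabeling

An algorithm (`Algo`) over a field `F` is a sequence of products of two linear combinations of
`1`, the variables and the earlier products; the outputs are linear combinations of the products,
`1` and the variables.  Only products are counted, linear combinations are free.  For a set `A` of
relabelings of the rows of the first matrix, the columns of the first and rows of the second matrix,
and the columns of the second matrix, `C.products A` is the set of all unordered pairs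
`{f L, f R}`, where `L`, `R` are the two factors of a product of the algorithm `C` and `f ∈ A`.

1. Let the index set consist of `r` triples of blocks of size `s`, and a rest. There is an
   elementary abelian group `Γ` of at most `3 r` permutations (cyclic shifts of the triples of
   blocks) such that every algorithm, over every field, has at least `r ^ 3 s ^ 2 / 8` different
   products up to `Γ × Γ × Γ`.  No symmetry of the algorithm is assumed.  For `s = 1` and `m × m`
   matrices the number of products up to relabeling is at least `⌊m / 3⌋ ^ 3 / 8`, whatever the
   number of products of the algorithm is.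
2. The school method has `m ^ 3` products, also up to all relabelings.
3. An algorithm with `N` products for `s × s` matrices gives one for `3 r s × 3 r s` matrices with
   `(3 r) ^ 3 N` products up to all permutations of the blocks.
-/

set_option autoImplicit false

namespace Pool.Agent.Results.MP_e72dc0_lc.FewProducts

open Pool.Agent.H429R4.MM

theorem result :
    -- every algorithm has many products up to relabeling
    (∀ r : ℕ, 1 ≤ r → ∃ Γ : AddSubgroup (Fin r → ZMod 3), Nat.card Γ ≤ 3 * r ∧
      ∀ (F : Type) [Field F] (s : ℕ) (Z G : Type) [Fintype Z] [Finite G]
        (C : Algo (Va (Ix r s Z)) F G), C.Multiplies →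
        ∀ A : Set (Va (Ix r s Z) → Va (Ix r s Z)),
          (∀ x ∈ Γ, ∀ y ∈ Γ, ∀ z ∈ Γ, sand (shift x) (shift y) (shift z) ∈ A) →
          r ^ 3 * s ^ 2 ≤ 8 * (C.products A).ncard) ∧
    -- the school method
    (∀ (F M : Type) [Field F] [Fintype M], ∃ C : Algo (Va M) F (M × M × M),
      C.Multiplies ∧ (C.products (relabelings M)).ncard ≤ Fintype.card M ^ 3) ∧
    -- algorithms from algorithms for the blocks
    (∀ (F G : Type) [Field F] [Fintype G] (s : ℕ) (C₀ : Algo (Va (Fin s)) F G), C₀.Multiplies →
      ∀ r : ℕ, ∃ (G' : Type) (_ : Fintype G') (C : Algo (Va (Ix r s Empty)) F G'),
        C.Multiplies ∧ (C.products {f | ∃ π ρ σ : Equiv.Perm (Fin r × ZMod 3),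
          f = sand (blockMap π) (blockMap ρ) (blockMap σ)}).ncard ≤
            (3 * r) ^ 3 * Fintype.card G) := by
  refine ⟨prod_bound, ?_, ?_⟩
  · intro F M _ _
    exact ⟨school M F, school_multiplies M, school_products M⟩
  · intro F G _ _ s C₀ hC r
    exact ⟨BB r × G, inferInstance, blockAlgo r C₀, blockAlgo_multiplies r C₀ hC,
      blockAlgo_products r C₀⟩

end Pool.Agent.Results.MP_e72dc0_lc.FewProducts
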