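import Pool.Agent.H682R3.MM.Count

/-!
# Fast matrix multiplication needs about `n ^ 2` products of large norm
-/

namespace Pool.Agent.Results.MP_e72dc0_lc.LargeProducts

open Finset Matrix Pool.Agent.H682R3.MM

/-- Let `A s ⊗ B s ⊗ C s`, `s ∈ S`, be the rank one terms of a bilinear algorithm (over `ℝ` or `ℂ`)
which computes the product of `n × n` matrices approximately: the sum of the squares of the
coefficients of the difference `∑ s, A s ⊗ B s ⊗ C s - tr (X Y Z)` is at most `η ^ 2`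
(`η = 0`: exactly).

(1) For every set `T` of at most `n ^ 2` exceptional products,
`∑_{s ∉ T} ‖A s‖ ‖B s‖ ‖C s‖ ≥ n (n ^ 2 - |T|) - η √(n (n ^ 2 - |T|))` (Frobenius norms).
(2) Hence if all products outside a set `T` satisfy `‖A s‖ ‖B s‖ ‖C s‖ ≤ lam`, then
`|T| ≥ n ^ 2 - ((η + √(η ^ 2 + 4 lam |S|)) / 2) ^ 2 / n`; for `η = 0` this is
`|T| ≥ n ^ 2 - lam |S| / n`. -/
theorem result (𝕜 : Type) [RCLike 𝕜] (n : ℕ) (hn : 1 ≤ n) (S : Type) [Fintype S] [DecidableEq S]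
    (A B C : S → Matrix (Fin n) (Fin n) 𝕜) (η : ℝ) (hη : 0 ≤ η)
    (hE : ∑ i, ∑ j, ∑ k, ∑ l, ∑ p, ∑ q, ‖err A B C i j k l p q‖ ^ 2 ≤ η ^ 2) :
    (∀ T : Finset S, T.card ≤ n ^ 2 →
      n * ((n : ℝ) ^ 2 - T.card) - η * √(n * ((n : ℝ) ^ 2 - T.card)) ≤
        ∑ s ∈ Tᶜ, fro (A s) * fro (B s) * fro (C s)) ∧
    (∀ lam : ℝ, 0 ≤ lam → ∀ T : Finset S,
      (∀ s ∉ T, fro (A s) * fro (B s) * fro (C s) ≤ lam) →
      (n : ℝ) ^ 2 - ((η + √(η ^ 2 + 4 * lam * Fintype.card S)) / 2) ^ 2 / n ≤ T.card) :=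
  ⟨fun T hT => nuc A B C T hT η hη hE,
    fun lam hlam T hT => large_products hn A B C η hη hE lam hlam T hT⟩

end Pool.Agent.Results.MP_e72dc0_lc.LargeProducts
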