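import Pool.Agent.H88R3.MM.Circ
import Pool.Agent.H88R3.MM.Approx
import Pool.Agent.H88R3.MM.Power

set_option autoImplicit false

/-!
# Matrix multiplication: the ranks of the linear forms which are multiplied
-/

namespace Pool.Agent.Results.MP_e72dc0_lc.RankOfForms

open Finset Pool.Agent.H88R3.MM Pool.Agent.H522R2

variable {F : Type*} [Field F]

/-- the circuit has the entries of the product of two generic `m × m` matrices among the
polynomials which it computes -/
def Computes {m : ℕ} (C : Circuit F (Vars m)) : Prop :=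
  ∀ i j, ∃ k : Fin C.nodes, C.poly k = entry F m i j

/-- the larger one of the ranks of the `a`-parts of the two factors of a product gate -/
noncomputable def rankA {m : ℕ} (C : Circuit F (Vars m)) (g : Fin C.nodes) : ℕ :=
  max (linA (C.poly (inp C g).1)).rank (linA (C.poly (inp C g).2)).rank

/-- the larger one of the ranks of the `b`-parts of the two factors of a product gate -/
noncomputable def rankB {m : ℕ} (C : Circuit F (Vars m)) (g : Fin C.nodes) : ℕ :=
  max (linB (C.poly (inp C g).1)).rank (linB (C.poly (inp C g).2)).rank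

open Classical in
theorem bound_of_sum {m : ℕ} (C : Circuit F (Vars m)) (f1 f2 : Fin C.nodes → ℕ)
    (h1 : ∀ g, f1 g ≤ m) (h2 : ∀ g, f2 g ≤ m)
    (h : m ^ 3 ≤ ∑ g : {g : Fin C.nodes // C.IsNonscalar g}, (f1 g.1 + f2 g.1)) (r : ℕ) :
    m ^ 3 ≤ 2 * r * C.nonscalarCount +
      2 * m * Nat.card {g : Fin C.nodes // C.IsNonscalar g ∧ r < max (f1 g) (f2 g)} := by
  have e1 : ∀ g : {g : Fin C.nodes // C.IsNonscalar g}, f1 g.1 + f2 g.1 ≤
      2 * r + if r < max (f1 g.1) (f2 g.1) then 2 * m else 0 := by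
    intro g
    have h3 := h1 g.1
    have h4 := h2 g.1
    split_ifs with h5
    · omega
    · rw [not_lt, max_le_iff] at h5
      omega
  refine h.trans ((sum_le_sum fun g _ => e1 g).trans (le_of_eq ?_))
  rw [sum_add_distrib, sum_const, card_univ, smul_eq_mul, ← sum_filter, sum_const, smul_eq_mul,
    Circuit.nonscalarCount, Nat.card_eq_fintype_card, Nat.card_eq_fintype_card, mul_comm]
  congr 1
  rw [mul_comm]
  congr 1
  rw [← Fintype.card_subtype]
  exact Fintype.card_congr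
    (Equiv.subtypeSubtypeEquivSubtypeInter (fun g => C.IsNonscalar g)
      (fun g => r < max (f1 g) (f2 g)))

theorem real_bound {m N : ℕ} (hm : 1 ≤ m) {K e : ℝ} (hK : 0 ≤ K)
    (h : ∀ r : ℕ, (∀ s : ℕ, (s : ℝ) ≤ K * (m : ℝ) ^ (1 - e) → s ≤ r) → m ^ 3 ≤ 2 * r * N) :
    ((m : ℝ) ^ 2) ^ (1 + e / 2) ≤ 2 * K * N := by
  have hm' : (0 : ℝ) < m := by exact_mod_cast hm
  have h0 : (0 : ℝ) ≤ K * (m : ℝ) ^ (1 - e) := by positivity
  have h1 := h ⌊K * (m : ℝ) ^ (1 - e)⌋₊ fun s hs => Nat.le_floor hs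
  have h2 : (⌊K * (m : ℝ) ^ (1 - e)⌋₊ : ℝ) ≤ K * (m : ℝ) ^ (1 - e) := Nat.floor_le h0
  have h3 : ((m : ℝ) ^ 3) ≤ 2 * (K * (m : ℝ) ^ (1 - e)) * N := by
    have h4 : ((m ^ 3 : ℕ) : ℝ) ≤ ((2 * ⌊K * (m : ℝ) ^ (1 - e)⌋₊ * N : ℕ) : ℝ) := by
      exact_mod_cast h1
    push_cast at h4
    refine h4.trans ?_
    gcongr
  have h5 : ((m : ℝ) ^ 2) ^ (1 + e / 2) * (m : ℝ) ^ (1 - e) = (m : ℝ) ^ 3 := by
    rw [← Real.rpow_natCast (m : ℝ) 2, ← Real.rpow_mul hm'.le, ← Real.rpow_add hm',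
      ← Real.rpow_natCast (m : ℝ) 3]
    congr 1
    push_cast
    ring
  have h6 : (0 : ℝ) < (m : ℝ) ^ (1 - e) := Real.rpow_pos_of_pos hm' _
  have h7 : ((m : ℝ) ^ 2) ^ (1 + e / 2) * (m : ℝ) ^ (1 - e) ≤
      2 * K * N * (m : ℝ) ^ (1 - e) := by
    rw [h5]
    linarith
  exact le_of_mul_le_mul_right h7 h6

theorem restricted {m : ℕ} (hm : 1 ≤ m) (C : Circuit F (Vars m)) (f1 f2 : Fin C.nodes → ℕ)
    (h : ∀ r : ℕ, m ^ 3 ≤ 2 * r * C.nonscalarCount +
      2 * m * Nat.card {g : Fin C.nodes // C.IsNonscalar g ∧ r < max (f1 g) (f2 g)})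
    {K e : ℝ} (hK : 0 ≤ K)
    (hf : ∀ g, C.IsNonscalar g → ((max (f1 g) (f2 g) : ℕ) : ℝ) ≤ K * (m : ℝ) ^ (1 - e)) :
    ((m : ℝ) ^ 2) ^ (1 + e / 2) ≤ 2 * K * C.nonscalarCount := by
  refine real_bound hm hK fun r hr => ?_
  have h1 := h r
  have h2 : Nat.card {g : Fin C.nodes // C.IsNonscalar g ∧ r < max (f1 g) (f2 g)} = 0 := by
    rw [Nat.card_eq_zero]
    left
    exact ⟨fun g => absurd (hr _ (hf g.1 g.2.1)) (not_le.2 g.2.2)⟩
  rw [h2, mul_zero, add_zero] at h1
  exact h1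

/-- the number of nonzero coefficients -/
noncomputable def nnz {I J L : Type*} (U : L → Matrix I J F) : ℕ :=
  Nat.card {x : L × I × J // U x.1 x.2.1 x.2.2 ≠ 0}

theorem sum_rank_le_nnz {I J L : Type*} [Fintype I] [Fintype J] [Fintype L]
    (U : L → Matrix I J F) : ∑ l, (U l).rank ≤ nnz U := by
  classical
  refine (sum_le_sum fun l _ => rank_le_nnz (U l)).trans (le_of_eq ?_)
  rw [nnz, Nat.card_eq_fintype_card, Fintype.card_subtype, Finset.card_filter,
    Fintype.sum_prod_type]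
  refine sum_congr rfl fun l _ => ?_
  rw [Finset.card_filter]

open Classical in
theorem result {F : Type*} [Field F] :
    -- all circuits which compute the product
    (∀ (m : ℕ) (C : Circuit F (Vars m)), Computes C →
      -- the sum of the ranks of the factors
      m ^ 3 ≤ ∑ g : {g : Fin C.nodes // C.IsNonscalar g},
        ((linA (C.poly (inp C g.1).1)).rank + (linA (C.poly (inp C g.1).2)).rank) ∧
      m ^ 3 ≤ ∑ g : {g : Fin C.nodes // C.IsNonscalar g},
        ((linB (C.poly (inp C g.1).1)).rank + (linB (C.poly (inp C g.1).2)).rank) ∧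
      -- the number of the products with a factor of large rank
      (∀ r : ℕ, m ^ 3 ≤ 2 * r * C.nonscalarCount +
        2 * m * Nat.card {g : Fin C.nodes // C.IsNonscalar g ∧ r < rankA C g}) ∧
      (∀ r : ℕ, m ^ 3 ≤ 2 * r * C.nonscalarCount +
        2 * m * Nat.card {g : Fin C.nodes // C.IsNonscalar g ∧ r < rankB C g}) ∧
      -- circuits in which no product has a factor of large rank
      (1 ≤ m → ∀ K ε : ℝ, 0 ≤ K →
        ((∀ g, C.IsNonscalar g → (rankA C g : ℝ) ≤ K * (m : ℝ) ^ (1 - ε)) ∨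
          ∀ g, C.IsNonscalar g → (rankB C g : ℝ) ≤ K * (m : ℝ) ^ (1 - ε)) →
        ((m : ℝ) ^ 2) ^ (1 + ε / 2) ≤ 2 * K * C.nonscalarCount) ∧
      C.nonscalarCount ≤ C.mulCount ∧ C.mulCount ≤ C.size) ∧
    -- bilinear algorithms
    (∀ (I J K L : Type) [Fintype I] [Fintype J] [Fintype K] [Fintype L]
      (U : L → Matrix I J F) (V : L → Matrix J K F) (W : L → Matrix I K F), IsAlg U V W →
      Fintype.card I * Fintype.card J * Fintype.card K ≤ ∑ l, (U l).rank ∧
      Fintype.card I * Fintype.card J * Fintype.card K ≤ ∑ l, (V l).rank ∧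
      Fintype.card I * Fintype.card J * Fintype.card K ≤ ∑ l, (W l).rank ∧
      ∑ l, (U l).rank ≤ nnz U ∧ ∑ l, (V l).rank ≤ nnz V ∧ ∑ l, (W l).rank ≤ nnz W) ∧
    -- approximate bilinear algorithms
    (∀ (I J K L : Type) [Fintype I] [Fintype J] [Fintype K] [Fintype L] (h : ℕ)
      (U : L → Matrix I J (Polynomial F)) (V : L → Matrix J K (Polynomial F))
      (W : L → Matrix I K (Polynomial F)), IsApprox h U V W →
      Fintype.card I * Fintype.card J * Fintype.card K ≤ ∑ l, rk (U l) ∧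
      Fintype.card I * Fintype.card J * Fintype.card K ≤ ∑ l, rk (V l) ∧
      Fintype.card I * Fintype.card J * Fintype.card K ≤ ∑ l, rk (W l)) ∧
    -- block algorithms
    (∀ (s N : ℕ) (U V W : Fin N → Matrix (Fin s) (Fin s) F), IsAlg U V W → ∀ q : ℕ,
      ∃ U' V' W' : Fin (q ^ 3 * N) → Matrix (Fin (q * s)) (Fin (q * s)) F, IsAlg U' V' W' ∧
        ∀ l, (U' l).rank ≤ s ∧ (V' l).rank ≤ s ∧ (W' l).rank ≤ s) ∧
    -- equality, with few products
    (∀ q k : ℕ, ∃ U V W : Fin (q ^ 3 * 7 ^ k) → Matrix (Fin (q * 2 ^ k)) (Fin (q * 2 ^ k)) F,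
      IsAlg U V W ∧ (∀ l, (U l).rank ≤ 2 ^ k ∧ (V l).rank ≤ 2 ^ k ∧ (W l).rank ≤ 2 ^ k) ∧
      ∑ l, (U l).rank = (q * 2 ^ k) ^ 3 ∧ ∑ l, (V l).rank = (q * 2 ^ k) ^ 3 ∧
      ∑ l, (W l).rank = (q * 2 ^ k) ^ 3) := by
  refine ⟨fun m C hC => ?_, fun I J K L _ _ _ _ U V W h => ⟨h.card_le_U, h.card_le_V,
    h.card_le_W, sum_rank_le_nnz U, sum_rank_le_nnz V, sum_rank_le_nnz W⟩,
    fun I J K L _ _ _ _ n U V W h => ⟨h.card_le_U, h.card_le_V, h.card_le_W⟩, ?_, ?_⟩
  · have hA := bound_of_sum C (fun g => (linA (C.poly (inp C g).1)).rank)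
      (fun g => (linA (C.poly (inp C g).2)).rank) (fun g => Matrix.rank_le_width _)
      (fun g => Matrix.rank_le_width _) (circuit_A C hC)
    have hB := bound_of_sum C (fun g => (linB (C.poly (inp C g).1)).rank)
      (fun g => (linB (C.poly (inp C g).2)).rank) (fun g => Matrix.rank_le_width _)
      (fun g => Matrix.rank_le_width _) (circuit_B C hC)
    refine ⟨circuit_A C hC, circuit_B C hC, hA, hB, fun hm K ε hK h => ?_,
      C.nonscalarCount_le_mulCount, C.mulCount_le_size⟩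
    rcases h with h | h
    · exact restricted hm C (fun g => (linA (C.poly (inp C g).1)).rank)
        (fun g => (linA (C.poly (inp C g).2)).rank) hA hK h
    · exact restricted hm C (fun g => (linB (C.poly (inp C g).1)).rank)
        (fun g => (linB (C.poly (inp C g).2)).rank) hB hK h
  · intro s N U V W h q
    obtain ⟨U', V', W', h1, h2, -⟩ := (has_school (F := F) q).mul
      (⟨U, V, W, h, fun _ => ⟨Matrix.rank_le_width _, Matrix.rank_le_width _,
        Matrix.rank_le_width _⟩, le_max_left _ _,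
        (le_max_left _ _).trans (le_max_right _ _), (le_max_right _ _).trans (le_max_right _ _)⟩ :
        Has F s N s (max (∑ l, (U l).rank) (max (∑ l, (V l).rank) (∑ l, (W l).rank))))
    rw [one_mul] at h2
    exact ⟨U', V', W', h1, h2⟩
  · intro q k
    obtain ⟨U, V, W, h1, h2, h3, h4, h5⟩ := (has_school (F := F) q).mul (has_strassen_pow k)
    have e : q ^ 3 * 8 ^ k = (q * 2 ^ k) ^ 3 := by
      rw [mul_pow, ← pow_mul, mul_comm k 3, pow_mul]
      norm_num
    have hc : Fintype.card (Fin (q * 2 ^ k)) * Fintype.card (Fin (q * 2 ^ k)) *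
        Fintype.card (Fin (q * 2 ^ k)) = (q * 2 ^ k) ^ 3 := by
      rw [Fintype.card_fin]
      ring
    rw [one_mul] at h2
    rw [e] at h3 h4 h5
    exact ⟨U, V, W, h1, h2, h3.antisymm (hc.symm.le.trans h1.card_le_U),
      h4.antisymm (hc.symm.le.trans h1.card_le_V), h5.antisymm (hc.symm.le.trans h1.card_le_W)⟩

end Pool.Agent.Results.MP_e72dc0_lc.RankOfForms
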